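import Pool.Agent.L7h17.OC.Stm

/-!
# OC, part SEVA
-/

set_option autoImplicit false

namespace Pool.Agent.L7h56.OC

open Pool.Agent.L7h17.OC

/-- Rolle's theorem for a sequence of zeros -/
theorem rolle_seq (f f' : ℝ → ℝ) (hf : ∀ x, HasDerivAt f (f' x) x) (n : ℕ) (x : ℕ → ℝ)
    (hx : ∀ i < n, x i < x (i + 1)) (h0 : ∀ i < n + 1, f (x i) = 0) :
    ∃ y : ℕ → ℝ, (∀ i < n, x i < y i ∧ y i < x (i + 1) ∧ f' (y i) = 0) := by
  have key : ∀ i, ∃ y, i < n → x i < y ∧ y < x (i + 1) ∧ f' y = 0 := by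
    intro i
    by_cases hi : i < n
    · obtain ⟨c, hc, hc'⟩ := exists_hasDerivAt_eq_zero (f := f) (f' := f') (hx i hi)
        (fun z _ => (hf z).continuousAt.continuousWithinAt)
        (by rw [h0 i (by omega), h0 (i + 1) (by omega)]) (fun z _ => hf z)
      exact ⟨c, fun _ => ⟨hc.1, hc.2, hc'⟩⟩
    · exact ⟨0, fun h => absurd h hi⟩
  choose y hy using key
  exact ⟨y, hy⟩

/-- a cubic with four zeros is zero -/
theorem cubic (a0 a1 a2 a3 : ℝ) (y : ℕ → ℝ) (hy : ∀ i < 3, y i < y (i + 1))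
    (h : ∀ i < 4, a0 + a1 * y i + a2 * y i ^ 2 + a3 * y i ^ 3 = 0) : a3 = 0 := by
  set q : Polynomial ℝ := Polynomial.C a0 + Polynomial.C a1 * Polynomial.X +
    Polynomial.C a2 * Polynomial.X ^ 2 + Polynomial.C a3 * Polynomial.X ^ 3 with hq
  have hdeg : q.natDegree ≤ 3 := by
    rw [hq]
    compute_degree
  have hinj : Function.Injective (fun i : Fin 4 => y i) := by
    have h01 := hy 0 (by norm_num)
    have h12 := hy 1 (by norm_num)
    have h23 := hy 2 (by norm_num)
    norm_num at h01 h12 h23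
    have : StrictMono (fun i : Fin 4 => y i) := by
      rw [Fin.strictMono_iff_lt_succ]
      intro i
      fin_cases i
      · exact h01
      · exact h12
      · exact h23
    exact this.injective
  have hz : q = 0 := by
    apply Polynomial.eq_zero_of_natDegree_lt_card_of_eval_eq_zero q hinj
    · intro i
      rw [hq]
      simp only [Polynomial.eval_add, Polynomial.eval_mul, Polynomial.eval_C, Polynomial.eval_X,
        Polynomial.eval_pow]
      exact h i i.2
    · rw [Fintype.card_fin]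
      omega
  have h3 : q.coeff 3 = a3 := by
    rw [hq]
    simp [Polynomial.coeff_X_pow]
  rw [← h3, hz, Polynomial.coeff_zero]

theorem s_SEVA : S_SEVA := by
  intro p s α β x hdeg h4 hs him hx hv
  set c0 := p.coeff 0 with hc0
  set c1 := p.coeff 1 with hc1
  set c2 := p.coeff 2 with hc2
  set c3 := p.coeff 3 with hc3
  set c4 := p.coeff 4 with hc4
  have hpe : ∀ t : ℝ, p.eval t = c0 + c1 * t + c2 * t ^ 2 + c3 * t ^ 3 + c4 * t ^ 4 := by
    intro t
    rw [Polynomial.eval_eq_sum_range' (n := 5) (by omega)]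
    simp [Finset.sum_range_succ, hc0, hc1, hc2, hc3, hc4]
  set A := β.re ^ 2 + β.im ^ 2 with hA
  set B := β.re * α.re + β.im * α.im with hB
  set C := α.re ^ 2 + α.im ^ 2 with hC
  set κ := (β.re * α.im - β.im * α.re) ^ 2 with hκ
  have hκ' : κ = A * C - B ^ 2 := by rw [hκ, hA, hB, hC]; ring
  have him' : β.re * α.im - β.im * α.re ≠ 0 := by
    simp only [Complex.mul_im, Complex.conj_re, Complex.conj_im] at him
    intro h
    apply him
    linarith
  have hκ0 : 0 < κ := by rw [hκ]; positivity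
  set N : ℝ → ℝ := fun t => A + 2 * B * t + C * t ^ 2 with hN
  have hNe : ∀ t, N t = (β.re + α.re * t) ^ 2 + (β.im + α.im * t) ^ 2 := by
    intro t
    simp only [hN, hA, hB, hC]; ring
  have hNpos : ∀ t, 0 < N t := by
    intro t
    rw [hNe]
    rcases eq_or_ne (β.re + α.re * t) 0 with h | h
    · rcases eq_or_ne (β.im + α.im * t) 0 with h' | h'
      · exfalso
        apply him'
        linear_combination α.im * h - α.re * h'
      · positivity
    · positivity
  have hnorm : ∀ t : ℝ, ‖β + α * (t : ℂ)‖ = √(N t) := by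
    intro t
    rw [Complex.norm_def, Complex.normSq_apply, hNe]
    congr 1
    simp
    ring
  have hC0 : 0 < C := by
    have : 0 ≤ C := by rw [hC]; positivity
    rcases this.lt_or_eq with h | h
    · exact h
    · exfalso
      rw [← h] at hκ'
      nlinarith [sq_nonneg B]
  set h : ℝ → ℝ := fun t => √(N t) with hh
  have hhpos : ∀ t, 0 < h t := fun t => Real.sqrt_pos.2 (hNpos t)
  have hh2 : ∀ t, h t ^ 2 = N t := fun t => Real.sq_sqrt (hNpos t).le
  have dN : ∀ t, HasDerivAt N (2 * B + 2 * C * t) t := by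
    intro t
    have h1 : HasDerivAt (fun t : ℝ => A + 2 * B * t + C * t ^ 2)
        (0 + 2 * B * 1 + C * (2 * t)) t := by
      refine ((hasDerivAt_const t A).add ((hasDerivAt_id t).const_mul (2 * B))).add ?_
      have := (hasDerivAt_pow 2 t).const_mul C
      simpa using this
    convert h1 using 1
    ring
  have dh : ∀ t, HasDerivAt h ((B + C * t) / h t) t := by
    intro t
    have h1 := (dN t).sqrt (hNpos t).ne'
    have e : (2 * B + 2 * C * t) / (2 * √(N t)) = (B + C * t) / h t := by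
      have : √(N t) ≠ 0 := (hhpos t).ne'
      simp only [hh]
      field_simp
    rwa [e] at h1
  have dl : ∀ t, HasDerivAt (fun t : ℝ => B + C * t) C t := by
    intro t
    simpa using ((hasDerivAt_id t).const_mul C).const_add B
  -- the second derivative of `h`
  have dh2 : ∀ t, HasDerivAt (fun t => (B + C * t) / h t) (κ / h t ^ 3) t := by
    intro t
    have h1 := (dl t).div (dh t) (hhpos t).ne'
    refine HasDerivAt.congr_deriv h1 ?_
    have := (hhpos t).ne'
    have e2 := hh2 t
    have e3 : κ = C * h t ^ 2 - (B + C * t) ^ 2 := by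
      rw [e2, hκ']
      simp only [hN]
      ring
    rw [e3]
    field_simp
  have dP : ∀ t, HasDerivAt (fun t : ℝ => c0 + c1 * t + c2 * t ^ 2 + c3 * t ^ 3 + c4 * t ^ 4)
      (c1 + 2 * c2 * t + 3 * c3 * t ^ 2 + 4 * c4 * t ^ 3) t := by
    intro t
    have h1 := ((((hasDerivAt_const t c0).add ((hasDerivAt_id t).const_mul c1)).add
      ((hasDerivAt_pow 2 t).const_mul c2)).add ((hasDerivAt_pow 3 t).const_mul c3)).add
      ((hasDerivAt_pow 4 t).const_mul c4)
    refine HasDerivAt.congr_deriv h1 ?_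
    norm_num
    ring
  have dP1 : ∀ t, HasDerivAt (fun t : ℝ => c1 + 2 * c2 * t + 3 * c3 * t ^ 2 + 4 * c4 * t ^ 3)
      (2 * c2 + 6 * c3 * t + 12 * c4 * t ^ 2) t := by
    intro t
    have h1 := (((hasDerivAt_const t c1).add ((hasDerivAt_id t).const_mul (2 * c2))).add
      ((hasDerivAt_pow 2 t).const_mul (3 * c3))).add ((hasDerivAt_pow 3 t).const_mul (4 * c4))
    refine HasDerivAt.congr_deriv h1 ?_
    norm_num
    ring
  have dP2 : ∀ t, HasDerivAt (fun t : ℝ => 2 * c2 + 6 * c3 * t + 12 * c4 * t ^ 2)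
      (6 * c3 + 24 * c4 * t) t := by
    intro t
    have h1 := ((hasDerivAt_const t (2 * c2)).add ((hasDerivAt_id t).const_mul (6 * c3))).add
      ((hasDerivAt_pow 2 t).const_mul (12 * c4))
    refine HasDerivAt.congr_deriv h1 ?_
    norm_num
    ring
  have hs0 : s ≠ 0 := by rcases hs with h | h <;> rw [h] <;> norm_num
  -- three times Rolle
  obtain ⟨y, hy⟩ := rolle_seq
    (fun t => s * (c0 + c1 * t + c2 * t ^ 2 + c3 * t ^ 3 + c4 * t ^ 4) - h t)
    (fun t => s * (c1 + 2 * c2 * t + 3 * c3 * t ^ 2 + 4 * c4 * t ^ 3) - (B + C * t) / h t)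
    (fun t => ((dP t).const_mul s).sub (dh t)) 6 x hx (fun i hi => by
      have := (hv i hi).2
      rw [hnorm, hpe] at this
      simp only [hh]
      linarith)
  obtain ⟨z, hz⟩ := rolle_seq _
    (fun t => s * (2 * c2 + 6 * c3 * t + 12 * c4 * t ^ 2) - κ / h t ^ 3)
    (fun t => ((dP1 t).const_mul s).sub (dh2 t)) 5 y
    (fun i hi => (hy i (by omega)).2.1.trans (hy (i + 1) (by omega)).1)
    (fun i hi => (hy i (by omega)).2.2)
  obtain ⟨w, hw⟩ := rolle_seq
    (fun t => s * (2 * c2 + 6 * c3 * t + 12 * c4 * t ^ 2) * h t ^ 3 - κ)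
    (fun t => s * (6 * c3 + 24 * c4 * t) * h t ^ 3 +
      s * (2 * c2 + 6 * c3 * t + 12 * c4 * t ^ 2) * (3 * h t ^ 2 * ((B + C * t) / h t)))
    (fun t => by
      have h1 := (((dP2 t).const_mul s).mul ((dh t).pow 3)).sub_const κ
      refine HasDerivAt.congr_deriv h1 ?_
      norm_num) 4 z
    (fun i hi => (hz i (by omega)).2.1.trans (hz (i + 1) (by omega)).1)
    (fun i hi => by
      have h1 := (hz i (by omega)).2.2
      have h2 := (hhpos (z i)).ne'
      field_simp at h1
      linarith)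
  -- the cubic
  have h60 : 60 * c4 * C = 0 := by
    apply cubic (6 * c3 * A + 6 * c2 * B)
      (24 * c4 * A + 12 * c3 * B + 6 * c2 * C + 18 * c3 * B)
      (48 * c4 * B + 6 * c3 * C + 36 * c4 * B + 18 * c3 * C) (60 * c4 * C) w
      (fun i hi => (hw i (by omega)).2.1.trans (hw (i + 1) (by omega)).1)
    intro i hi
    have h1 := (hw i hi).2.2
    have h2 := (hhpos (w i)).ne'
    have h3 := hh2 (w i)
    have e : s * (6 * c3 + 24 * c4 * w i) * h (w i) ^ 3 +
      s * (2 * c2 + 6 * c3 * w i + 12 * c4 * w i ^ 2) *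
        (3 * h (w i) ^ 2 * ((B + C * w i) / h (w i))) =
      (s * h (w i)) * ((6 * c3 + 24 * c4 * w i) * N (w i) +
        3 * (2 * c2 + 6 * c3 * w i + 12 * c4 * w i ^ 2) * (B + C * w i)) := by
      rw [← h3]
      field_simp
    rw [e] at h1
    have h4 := (mul_eq_zero.1 h1).resolve_left (mul_ne_zero hs0 h2)
    simp only [hN] at h4
    linarith
  have : c4 ≠ 0 := h4
  have : 60 * c4 * C ≠ 0 := by positivity
  exact this h60

end Pool.Agent.L7h56.OC
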