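import Pool.Agent.L7h17.OC.Stm

/-!
# OC, part SIM7
-/

set_option autoImplicit false

open MvPolynomial

namespace Pool.Agent.L7h56.OC

open Pool.Agent.L7h17.OC

/-- every number of absolute value one is `exp (i m θ)` -/
theorem exists_angle (m : ℕ) (hm : 0 < m) (z : ℂ) (hz : ‖z‖ = 1) :
    ∃ θ : ℝ, Complex.exp (m * θ * Complex.I) = z := by
  refine ⟨z.arg / m, ?_⟩
  have hm' : (m : ℂ) ≠ 0 := by exact_mod_cast hm.ne'
  have e : (m : ℂ) * ((z.arg / m : ℝ) : ℂ) * Complex.I = z.arg * Complex.I := by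
    push_cast
    field_simp
  rw [e]
  have h := Complex.norm_mul_exp_arg_mul_I z
  rwa [hz, Complex.ofReal_one, one_mul] at h

theorem dtheta (m : ℕ) (w : ℂ) (c θ : ℝ) :
    HasDerivAt (fun x : ℝ => c + (Complex.exp (m * x * Complex.I) * w).re)
      ((Complex.exp (m * θ * Complex.I) * (m * Complex.I) * w).re) θ := by
  have h1 : HasDerivAt (fun x : ℂ => Complex.exp (m * x * Complex.I) * w)
      (Complex.exp (m * (θ : ℂ) * Complex.I) * (m * Complex.I) * w) (θ : ℂ) := by
    have h2 : HasDerivAt (fun x : ℂ => (m : ℂ) * x * Complex.I) (m * Complex.I) (θ : ℂ) := by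
      simpa using ((hasDerivAt_id (θ : ℂ)).const_mul (m : ℂ)).mul_const Complex.I
    exact h2.cexp.mul_const w
  exact (h1.real_of_complex).const_add c

theorem dpoly (p : Polynomial ℝ) (c τ : ℝ) :
    HasDerivAt (fun x : ℝ => p.eval (x ^ 2) + x * c) (2 * τ * p.derivative.eval (τ ^ 2) + c) τ := by
  have h1 : HasDerivAt (fun x : ℝ => x ^ 2) (2 * τ) τ := by
    simpa using hasDerivAt_pow 2 τ
  have h2 := (p.hasDerivAt (τ ^ 2)).comp τ h1
  have h3 : HasDerivAt (fun x : ℝ => x * c) c τ := by
    simpa using (hasDerivAt_id τ).mul_const c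
  have h4 := h2.add h3
  have e : p.derivative.eval (τ ^ 2) * (2 * τ) + c = 2 * τ * p.derivative.eval (τ ^ 2) + c := by
    ring
  rw [← e]
  exact h4

theorem s_SIM7 (hNSP : S_NSP) : S_SIM7 := by
  intro F p β hF hns hβ hP D hD
  obtain ⟨-, -, -, hP⟩ := hP
  have hβn : 0 < ‖β‖ := norm_pos_iff.2 hβ
  -- the form as a function of `τ`
  have hτ : ∀ θ x : ℝ, eval ![Real.cos θ, Real.sin θ, x] F =
      p.eval (x ^ 2) + x * (Complex.exp (((7 : ℕ) : ℂ) * θ * Complex.I) * β).re := by
    intro θ x
    rw [hP θ x]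
    congr 1
    rw [← mul_assoc, Complex.mul_re, Complex.ofReal_re, Complex.ofReal_im]
    ring
  constructor
  · intro h0
    obtain ⟨θ, hθ⟩ := exists_angle 7 (by norm_num) (Complex.I * ‖β‖ / β) (by
      rw [norm_div, norm_mul, Complex.norm_I, Complex.norm_real, norm_norm, one_mul,
        div_self hβn.ne'])
    have hre : (Complex.exp (((7 : ℕ) : ℂ) * θ * Complex.I) * β).re = 0 := by
      rw [hθ, div_mul_cancel₀ _ hβ]
      simp
    apply hNSP F hF hns θ 0
    · rw [hτ, hre]
      simp [h0]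
    · have : (fun x : ℝ => eval ![Real.cos x, Real.sin x, 0] F) = fun _ => (0 : ℝ) := by
        funext x
        rw [hτ]
        simp [h0]
      rw [this]
      exact hasDerivAt_const θ 0
    · have : (fun x : ℝ => eval ![Real.cos θ, Real.sin θ, x] F) =
          fun x : ℝ => p.eval (x ^ 2) + x * 0 := by
        funext x
        rw [hτ, hre]
      rw [this]
      have := dpoly p 0 0
      simpa using this
  · intro t ht h1 h2
    have hDt : ‖β‖ ^ 2 * t = p.eval t ^ 2 := by
      rw [hD] at h1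
      simp at h1
      linarith
    have hD' : ‖β‖ ^ 2 = 2 * p.eval t * p.derivative.eval t := by
      rw [hD] at h2
      simp [Polynomial.derivative_pow] at h2
      linarith
    set τ := Real.sqrt t with hτd
    have hτ0 : 0 < τ := Real.sqrt_pos.2 ht
    have hτ2 : τ ^ 2 = t := Real.sq_sqrt ht.le
    have hpn : |p.eval t| = ‖β‖ * τ := by
      rw [← abs_of_pos (mul_pos hβn hτ0)]
      apply (sq_eq_sq_iff_abs_eq_abs _ _).1
      rw [mul_pow, hτ2, hDt]
    have hp0 : p.eval t ≠ 0 := by
      intro h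
      rw [h, abs_zero] at hpn
      exact (mul_pos hβn hτ0).ne hpn
    have hτc : (τ : ℂ) ≠ 0 := by exact_mod_cast hτ0.ne'
    obtain ⟨θ, hθ⟩ := exists_angle 7 (by norm_num) (-((p.eval t : ℝ) : ℂ) / (β * τ)) (by
      rw [norm_div, norm_neg, norm_mul, Complex.norm_real, Complex.norm_real, Real.norm_eq_abs,
        Real.norm_eq_abs, abs_of_pos hτ0, hpn, div_self (mul_pos hβn hτ0).ne'])
    have hexp : Complex.exp (((7 : ℕ) : ℂ) * θ * Complex.I) * (β * τ) = -((p.eval t : ℝ) : ℂ) := by
      rw [hθ, div_mul_cancel₀ _ (mul_ne_zero hβ hτc)]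
    have hre : (Complex.exp (((7 : ℕ) : ℂ) * θ * Complex.I) * β).re = -p.eval t / τ := by
      have : Complex.exp (((7 : ℕ) : ℂ) * θ * Complex.I) * β = ((-p.eval t / τ : ℝ) : ℂ) := by
        rw [Complex.ofReal_div, Complex.ofReal_neg, eq_div_iff hτc, mul_assoc, hexp]
      rw [this, Complex.ofReal_re]
    apply hNSP F hF hns θ τ
    · rw [hτ, hre, hτ2]
      field_simp
      ring
    · have : (fun x : ℝ => eval ![Real.cos x, Real.sin x, τ] F) =
          fun x : ℝ => p.eval t + (Complex.exp (((7 : ℕ) : ℂ) * x * Complex.I) * (β * τ)).re := by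
        funext x
        rw [hP, hτ2]
      rw [this]
      have h := dtheta 7 (β * τ) (p.eval t) θ
      have e : (Complex.exp (((7 : ℕ) : ℂ) * θ * Complex.I) * (((7 : ℕ) : ℂ) * Complex.I) * (β * τ)).re = 0 := by
        have : Complex.exp (((7 : ℕ) : ℂ) * θ * Complex.I) * (((7 : ℕ) : ℂ) * Complex.I) * (β * τ) =
            (((7 : ℕ) : ℂ) * Complex.I) * (Complex.exp (((7 : ℕ) : ℂ) * θ * Complex.I) * (β * τ)) := by ring
        rw [this, hexp]
        simp
      rwa [e] at h
    · have : (fun x : ℝ => eval ![Real.cos θ, Real.sin θ, x] F) =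
          fun x : ℝ => p.eval (x ^ 2) + x * (-p.eval t / τ) := by
        funext x
        rw [hτ, hre]
      rw [this]
      have h := dpoly p (-p.eval t / τ) τ
      have e : 2 * τ * p.derivative.eval (τ ^ 2) + -p.eval t / τ = 0 := by
        rw [hτ2]
        have h3 : 2 * t * p.derivative.eval t = p.eval t := by
          apply mul_left_cancel₀ hp0
          linear_combination (-t) * hD' + hDt
        field_simp
        rw [hτ2]
        linarith
      rwa [e] at h

end Pool.Agent.L7h56.OC
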