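import Pool.Agent.L7h17.OC.Stm

/-!
# OC, part CNT8
-/

set_option autoImplicit false

namespace Pool.Agent.L7h56.OC

open Pool.Agent.L7h17.OC

/-- a polynomial of degree at most `n` with `n + 1` zeros -/
theorem van (f : Polynomial ℝ) (n : ℕ) (x : Fin (n + 1) → ℝ) (hx : StrictMono x)
    (h : ∀ i, f.eval (x i) = 0) (hd : f.natDegree ≤ n) : f = 0 :=
  Polynomial.eq_zero_of_natDegree_lt_card_of_eval_eq_zero f hx.injective h
    (by rw [Fintype.card_fin]; omega)

theorem five (p : Polynomial ℝ) (hd : p.natDegree ≤ 4) (h4 : p.coeff 4 ≠ 0)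
    (x0 x1 x2 x3 x4 : ℝ) (h01 : x0 < x1) (h12 : x1 < x2) (h23 : x2 < x3) (h34 : x3 < x4)
    (e1 : p.eval x1 = p.eval x0) (e2 : p.eval x2 = p.eval x0) (e3 : p.eval x3 = p.eval x0)
    (e4 : p.eval x4 = p.eval x0) : False := by
  have h := van (p - Polynomial.C (p.eval x0)) 4 ![x0, x1, x2, x3, x4]
    (by
      rw [Fin.strictMono_iff_lt_succ]
      intro i
      fin_cases i
      · exact h01
      · exact h12
      · exact h23
      · exact h34)
    (by
      intro i
      rw [Polynomial.eval_sub, Polynomial.eval_C, sub_eq_zero]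
      fin_cases i
      · rfl
      · exact e1
      · exact e2
      · exact e3
      · exact e4)
    ((Polynomial.natDegree_sub_C (a := p.eval x0)).trans_le hd)
  have h' := congrArg (fun f => Polynomial.coeff f 4) h
  simp only [Polynomial.coeff_sub, Polynomial.coeff_C, Polynomial.coeff_zero] at h'
  simp at h'
  exact h4 h'

theorem rol (f : Polynomial ℝ) {x y : ℝ} (h : x < y) (e : f.eval x = f.eval y) :
    ∃ z, x < z ∧ z < y ∧ f.derivative.eval z = 0 := by
  obtain ⟨c, hc, hc'⟩ := exists_hasDerivAt_eq_zero (f := fun t => f.eval t)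
    (f' := fun t => f.derivative.eval t) h f.continuous.continuousOn e
    (fun z _ => f.hasDerivAt z)
  exact ⟨c, hc.1, hc.2, hc'⟩

theorem fourthree (p : Polynomial ℝ) (hd : p.natDegree ≤ 4) (h4 : p.coeff 4 ≠ 0)
    (x0 x1 x2 x3 y0 y1 y2 : ℝ) (h01 : x0 < x1) (h12 : x1 < x2) (h23 : x2 < x3) (h3 : x3 < y0)
    (k01 : y0 < y1) (k12 : y1 < y2)
    (e1 : p.eval x0 = p.eval x1) (e2 : p.eval x1 = p.eval x2) (e3 : p.eval x2 = p.eval x3)
    (f1 : p.eval y0 = p.eval y1) (f2 : p.eval y1 = p.eval y2) : False := by
  obtain ⟨z1, a1, b1, c1⟩ := rol p h01 e1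
  obtain ⟨z2, a2, b2, c2⟩ := rol p h12 e2
  obtain ⟨z3, a3, b3, c3⟩ := rol p h23 e3
  obtain ⟨z4, a4, b4, c4⟩ := rol p k01 f1
  obtain ⟨z5, a5, b5, c5⟩ := rol p k12 f2
  obtain ⟨w1, d1, g1, l1⟩ := rol p.derivative (b1.trans a2) (c1.trans c2.symm)
  obtain ⟨w2, d2, g2, l2⟩ := rol p.derivative (b2.trans a3) (c2.trans c3.symm)
  obtain ⟨w3, d3, g3, l3⟩ := rol p.derivative (b4.trans a5) (c4.trans c5.symm)
  have h := van p.derivative.derivative 2 ![w1, w2, w3]
    (by
      rw [Fin.strictMono_iff_lt_succ]
      intro i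
      fin_cases i
      · exact g1.trans d2
      · show w2 < w3
        linarith)
    (by
      intro i
      fin_cases i
      · exact l1
      · exact l2
      · exact l3)
    (by
      have := Polynomial.natDegree_derivative_le p
      have := Polynomial.natDegree_derivative_le p.derivative
      omega)
  have h' := congrArg (fun f => Polynomial.coeff f 2) h
  simp only [Polynomial.coeff_derivative, Polynomial.coeff_zero] at h'
  norm_num at h'
  exact h4 h'

theorem s_CNT8 : S_CNT8 := by
  intro p r q a b hd h4 hr hq hB J hJ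
  obtain ⟨⟨ha0, hab, hba⟩, -, hDb, hDa, hDn⟩ := hB
  by_contra hcard
  push Not at hcard
  have hcard3 : 3 ≤ J.card := hcard
  have hJq : J ⊆ Finset.range q := fun j hj => Finset.mem_range.2 (hJ j hj).1
  have hJ4 : J ⊆ Finset.range 4 := hJq.trans (Finset.range_subset_range.2 hq)
  have hq3 : 3 ≤ q := by
    have := Finset.card_le_card hJq
    rw [Finset.card_range] at this
    omega
  have miss : ∀ i j, i < 4 → j < 4 → i ≠ j → i ∈ J ∨ j ∈ J := by
    intro i j hi hj hij
    by_contra h
    push Not at h
    have hsub : J ⊆ ((Finset.range 4).erase i).erase j := by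
      intro x hx
      rw [Finset.mem_erase, Finset.mem_erase]
      exact ⟨fun e => h.2 (e ▸ hx), fun e => h.1 (e ▸ hx), hJ4 hx⟩
    have hc := Finset.card_le_card hsub
    rw [Finset.card_erase_of_mem (Finset.mem_erase.2 ⟨hij.symm, Finset.mem_range.2 hj⟩),
      Finset.card_erase_of_mem (Finset.mem_range.2 hi), Finset.card_range] at hc
    omega
  -- the signs
  have hbsq : ∀ j < q, p.eval (b j) ^ 2 = r ^ 2 := fun j hj => by
    have := hDb j hj
    simp only at this
    linarith
  have hbpos : ∀ j, j < q → 0 < b j ∧ 0 ≤ a j := by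
    intro j
    induction j with
    | zero => intro hj; exact ⟨ha0.trans_lt (hab 0 hj), ha0⟩
    | succ j ih =>
      intro hj
      have h1 := ih (by omega)
      have h2 := hba j hj
      have h3 := hab (j + 1) hj
      constructor <;> linarith
  have hasq : ∀ j, j + 1 < q → p.eval (a (j + 1)) ^ 2 = r ^ 2 := by
    intro j hj
    rcases hDa (j + 1) hj with h | h
    · have h1 := (hbpos j (by omega)).1
      have h2 := hba j hj
      rw [h] at h2
      linarith
    · simp only at h
      linarith
  have hS : ∀ j, j + 1 < q → p.eval (a (j + 1)) = p.eval (b j) := by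
    intro j hj
    by_contra hne
    have h1 := hbsq j (by omega)
    have h2 := hasq j hj
    have h3 : p.eval (a (j + 1)) = -p.eval (b j) := by
      have : (p.eval (a (j + 1)) - p.eval (b j)) * (p.eval (a (j + 1)) + p.eval (b j)) = 0 := by
        linear_combination h2 - h1
      rcases mul_eq_zero.1 this with h | h
      · exact absurd (sub_eq_zero.1 h) hne
      · linarith
    have hb0 : p.eval (b j) ≠ 0 := by
      intro h
      rw [h] at h1
      nlinarith
    have hcont : ContinuousOn (fun t => p.eval t) (Set.Icc (b j) (a (j + 1))) :=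
      p.continuous.continuousOn
    have hle : b j ≤ a (j + 1) := (hba j hj).le
    have hz : ∃ t ∈ Set.Icc (b j) (a (j + 1)), p.eval t = 0 := by
      rcases lt_or_gt_of_ne hb0 with h | h
      · have := intermediate_value_Icc hle hcont
        obtain ⟨t, ht, ht'⟩ := this ⟨h.le, by simp only [h3]; linarith⟩
        exact ⟨t, ht, ht'⟩
      · have := intermediate_value_Icc' hle hcont
        obtain ⟨t, ht, ht'⟩ := this ⟨by simp only [h3]; linarith, h.le⟩
        exact ⟨t, ht, ht'⟩
    obtain ⟨t, ht, ht0⟩ := hz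
    have ht1 : b j < t := by
      rcases ht.1.lt_or_eq with h | h
      · exact h
      · exact absurd (h ▸ ht0) hb0
    have ht2 : t < a (j + 1) := by
      rcases ht.2.lt_or_eq with h | h
      · exact h
      · rw [h, h3] at ht0
        exact absurd (neg_eq_zero.1 ht0) hb0
    have := hDn j hj t ht1 ht2
    simp only [ht0] at this
    nlinarith
  have hG : ∀ j, j + 1 < q → j + 1 ∈ J → p.eval (b (j + 1)) = p.eval (a (j + 1)) := by
    intro j hj hjJ
    have h1 := hbsq (j + 1) hj
    have h2 := hasq j hj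
    rcases (hJ (j + 1) hjJ).2 with h | h
    · have h3 := (hbpos j (by omega)).1
      have h4 := hba j hj
      rw [h] at h4
      linarith
    · have : (p.eval (b (j + 1)) - p.eval (a (j + 1))) *
          (p.eval (b (j + 1)) + p.eval (a (j + 1))) = 0 := by
        linear_combination h1 - h2
      rcases mul_eq_zero.1 this with h5 | h5
      · linarith
      · simp only at h
        have h6 : p.eval (a (j + 1)) = -p.eval (b (j + 1)) := by linarith
        rw [h6] at h
        nlinarith [sq_nonneg (p.eval (b (j + 1)))]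
  have o0 := hba 0 (by omega)
  have o1 := hab 1 (by omega)
  have o2 := hba 1 (by omega)
  have o3 := hab 2 (by omega)
  have s0 := hS 0 (by omega)
  have s1 := hS 1 (by omega)
  norm_num at o0 o2 s0 s1
  have hq34 : q = 3 ∨ q = 4 := by omega
  by_cases h2J : 2 ∈ J
  · have g1 := hG 1 (by omega) h2J
    norm_num at g1
    by_cases h1J : 1 ∈ J
    · have g0 := hG 0 (by omega) h1J
      norm_num at g0
      exact five p hd h4 (b 0) (a 1) (b 1) (a 2) (b 2) o0 o1 o2 o3 s0 (g0.trans s0)
        (s1.trans (g0.trans s0)) (g1.trans (s1.trans (g0.trans s0)))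
    · have h3J : 3 ∈ J := (miss 1 3 (by norm_num) (by norm_num) (by norm_num)).resolve_left h1J
      have hq4 : 3 < q := (hJ 3 h3J).1
      have o4 := hba 2 (by omega)
      have o5 := hab 3 (by omega)
      have s2 := hS 2 (by omega)
      have g2 := hG 2 (by omega) h3J
      norm_num at o4 s2 g2
      exact five p hd h4 (b 1) (a 2) (b 2) (a 3) (b 3) o2 o3 o4 o5 s1 (g1.trans s1)
        (s2.trans (g1.trans s1)) (g2.trans (s2.trans (g1.trans s1)))
  · have h3J : 3 ∈ J := (miss 2 3 (by norm_num) (by norm_num) (by norm_num)).resolve_left h2J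
    have h1J : 1 ∈ J := (miss 2 1 (by norm_num) (by norm_num) (by norm_num)).resolve_left h2J
    have h0J : 0 ∈ J := (miss 2 0 (by norm_num) (by norm_num) (by norm_num)).resolve_left h2J
    have hq4 : 3 < q := (hJ 3 h3J).1
    have o4 := hba 2 (by omega)
    have o5 := hab 3 (by omega)
    have s2 := hS 2 (by omega)
    have g2 := hG 2 (by omega) h3J
    have g0 := hG 0 (by omega) h1J
    norm_num at o4 s2 g2 g0
    exact fourthree p hd h4 (b 0) (a 1) (b 1) (a 2) (b 2) (a 3) (b 3) o0 o1 o2 o3 o4 o5
      s0.symm g0.symm s1.symm s2.symm g2.symm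

end Pool.Agent.L7h56.OC
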